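import Mathlib
import Pool.Agent.Z894.CP.Stm2
import Pool.Agent.Y708.LX.Kappa

/-!
# Adding the roots of the linear forms to the coordinates
-/

set_option autoImplicit false
set_option linter.unusedSectionVars false

open MvPolynomial

namespace Pool.Agent.Y378.MB

open Pool.Agent.TH922.KC hiding Psi
open Pool.Agent.Z894.LX Pool.Agent.Z894.CP
open Pool.Agent.Y708.LX (gen_pt intRel_pow)

section aux

variable {κ Ω X : Type*} [Field κ] [Field Ω] [Algebra κ Ω] [Fintype X]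

/-- the homogeneous ideal of a point -/
theorem hom_ideal (y : X → Ω) : ∃ P' : Ideal (MvPolynomial X κ), IsHom P' ∧
    (∀ (t : ℕ) (p : MvPolynomial X κ), p.IsHomogeneous t → (p ∈ P' ↔ aeval y p = 0)) ∧
    ∀ t, hf P' t = Module.finrank κ (Pc κ y t) := by
  classical
  let Φ : MvPolynomial X κ →ₐ[κ] Polynomial Ω :=
    aeval (fun x => Polynomial.X * Polynomial.C (y x))
  have hΦ : ∀ (t : ℕ) (p : MvPolynomial X κ), p.IsHomogeneous t →
      Φ p = Polynomial.X ^ t * Polynomial.C (aeval y p) := by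
    intro t p hp
    simp only [Φ]
    rw [p.as_sum, map_sum, map_sum, map_sum, Finset.mul_sum]
    refine Finset.sum_congr rfl fun μ hμ => ?_
    have hdeg : μ.degree = t := by
      by_contra hne
      exact (mem_support_iff.mp hμ) (hp.coeff_eq_zero hne)
    rw [Finsupp.degree_eq_sum] at hdeg
    rw [aeval_monomial, aeval_monomial, Finsupp.prod_fintype _ _ (fun i => pow_zero _),
      Finsupp.prod_fintype _ _ (fun i => pow_zero _)]
    simp only [mul_pow]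
    rw [Finset.prod_mul_distrib, Finset.prod_pow_eq_pow_sum, hdeg, map_mul, map_prod]
    have : algebraMap κ (Polynomial Ω) (coeff μ p) = Polynomial.C (algebraMap κ Ω (coeff μ p)) :=
      rfl
    rw [this]
    simp only [map_pow]
    ring
  have hmem : ∀ (t : ℕ) (p : MvPolynomial X κ), p.IsHomogeneous t →
      (p ∈ RingHom.ker Φ ↔ aeval y p = 0) := by
    intro t p hp
    rw [RingHom.mem_ker, hΦ t p hp, mul_eq_zero, Polynomial.C_eq_zero]
    constructor
    · rintro (h | h)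
      · exact absurd h (pow_ne_zero _ Polynomial.X_ne_zero)
      · exact h
    · exact Or.inr
  have hHom : IsHom (RingHom.ker Φ) := by
    intro p hp k
    rw [hmem k _ (homogeneousComponent_isHomogeneous k p)]
    rw [RingHom.mem_ker, ← sum_homogeneousComponent p, map_sum] at hp
    by_cases hk : k ∈ Finset.range (p.totalDegree + 1)
    · have h1 := congrArg (fun f => Polynomial.coeff f k) hp
      simp only [Polynomial.finset_sum_coeff, Polynomial.coeff_zero] at h1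
      rw [Finset.sum_eq_single k] at h1
      · rw [hΦ k _ (homogeneousComponent_isHomogeneous k p)] at h1
        rw [mul_comm, Polynomial.coeff_C_mul, Polynomial.coeff_X_pow, if_pos rfl, mul_one] at h1
        exact h1
      · intro l _ hl
        rw [hΦ l _ (homogeneousComponent_isHomogeneous l p), mul_comm, Polynomial.coeff_C_mul,
          Polynomial.coeff_X_pow, if_neg (Ne.symm hl), mul_zero]
      · intro h; exact absurd hk h
    · have h0 : p.totalDegree < k := by simpa using hk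
      rw [homogeneousComponent_eq_zero _ _ h0, map_zero]
  refine ⟨RingHom.ker Φ, hHom, hmem, ?_⟩
  intro t
  have A := hf_add (RingHom.ker Φ) t
  have B := finrank_map_add (aeval y : MvPolynomial X κ →ₐ[κ] Ω).toLinearMap
    (homogeneousSubmodule X κ t)
  have e : (homogeneousSubmodule X κ t ⊓
      LinearMap.ker (aeval y : MvPolynomial X κ →ₐ[κ] Ω).toLinearMap)
      = KJ (RingHom.ker Φ) t := by
    ext p
    rw [mem_KJ]
    constructor
    · rintro ⟨h1, h2⟩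
      exact ⟨h1, (hmem t p h1).mpr h2⟩
    · rintro ⟨h1, h2⟩
      exact ⟨h1, (hmem t p h1).mp h2⟩
  rw [e] at B
  change _ = Module.finrank κ ((homogeneousSubmodule X κ t).map
    (aeval y : MvPolynomial X κ →ₐ[κ] Ω).toLinearMap)
  omega

lemma Pc_le {Y : Type*} [Fintype Y] {u : X → Ω} {w : Y → Ω} (h : ∀ x, u x ∈ Pc κ w 1) (t : ℕ) :
    Pc κ u t ≤ Pc κ w t := by
  intro x hx
  have h1 := Pc_induction (κ := κ) (u := u) (t := t) 1 (Pc κ w t) (fun μ hμ => by
    rw [mul_one]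
    have h2 := Pc_prod (κ := κ) (u := w) Finset.univ (fun x => 1 * μ x) (fun x => u x ^ μ x)
      (fun x _ => Pc_pow (h x) _)
    simp only [one_mul] at h2
    rwa [hμ] at h2) x hx
  rwa [mul_one] at h1

lemma intRel_mono {Y : Type*} [Fintype Y] {w : X → Ω} {w' : Y → Ω} {Q : ℕ} {z : Ω}
    (h : ∀ t, Pc κ w t ≤ Pc κ w' t) (hz : IntRel (κ := κ) w Q z) : IntRel (κ := κ) w' Q z := by
  obtain ⟨M, hM, g, hg, he⟩ := hz
  exact ⟨M, hM, g, fun i hi => h _ (hg i hi), he⟩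

/-- growth after adding elements of the field of degree one whose powers are polynomials -/
lemma growth {β : Type*} [Fintype β] (u : X → Ω) (x0 : X) (h0 : u x0 ≠ 0) (v : β → Ω) (Q : ℕ)
    (hQ : 0 < Q) (hv : ∀ i, v i ^ Q ∈ Pc κ u Q) (hF : ∀ i, v i / u x0 ∈ RF κ u x0)
    (hgr : ∃ C : ℕ, ∀ t, Module.finrank κ (Pc κ u t) ≤ C * (t + 1)) :
    ∃ C : ℕ, ∀ t, Module.finrank κ (Pc κ (Sum.elim u v) t) ≤ C * (t + 1) := by
  classical
  obtain ⟨N2, b2, hb2, hb20, hfb2⟩ := common_RF (κ := κ) h0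
    (fun ν : β → Fin Q => ∏ j, (v j / u x0) ^ (ν j : ℕ))
    (fun ν => prod_mem fun j _ => pow_mem (hF j) _)
  have hpart : ∀ t, ∀ x ∈ Pc κ (Sum.elim u v) t, x * b2 ∈ Pc κ u (t + N2) := by
    intro t
    apply Pc_induction
    intro ρ hρ
    rw [Fintype.prod_sum_type]
    rw [Fintype.sum_sum_type] at hρ
    simp only [Sum.elim_inl, Sum.elim_inr]
    have e1 : ∏ i, v i ^ ρ (Sum.inr i) = (∏ i, (v i ^ Q) ^ (ρ (Sum.inr i) / Q)) *
        (u x0 ^ (∑ i, ρ (Sum.inr i) % Q) * ∏ i, (v i / u x0) ^ (ρ (Sum.inr i) % Q)) := by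
      rw [← Finset.prod_pow_eq_pow_sum, ← Finset.prod_mul_distrib, ← Finset.prod_mul_distrib]
      refine Finset.prod_congr rfl fun i _ => ?_
      rw [← mul_pow, mul_div_cancel₀ _ h0, ← pow_mul, ← pow_add, Nat.div_add_mod]
    have h2 : ∏ j, u j ^ ρ (Sum.inl j) ∈ Pc κ u (∑ j, 1 * ρ (Sum.inl j)) :=
      Pc_prod _ _ _ fun j _ => Pc_pow (Pc_X u j) _
    have h3 : ∏ i, (v i ^ Q) ^ (ρ (Sum.inr i) / Q) ∈ Pc κ u (∑ i, Q * (ρ (Sum.inr i) / Q)) :=
      Pc_prod _ _ _ fun i _ => Pc_pow (hv i) _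
    have h4 : u x0 ^ (∑ i, ρ (Sum.inr i) % Q) ∈ Pc κ u (1 * ∑ i, ρ (Sum.inr i) % Q) :=
      Pc_pow (Pc_X u x0) _
    have h5 : (∏ i, (v i / u x0) ^ (ρ (Sum.inr i) % Q)) * b2 ∈ Pc κ u N2 :=
      hfb2 (fun i => ⟨ρ (Sum.inr i) % Q, Nat.mod_lt _ hQ⟩)
    have h6 := Pc_mul h2 (Pc_mul h3 (Pc_mul h4 h5))
    have h7 : ∑ j, 1 * ρ (Sum.inl j) + (∑ i, Q * (ρ (Sum.inr i) / Q) +
        (1 * ∑ i, ρ (Sum.inr i) % Q + N2)) = t + N2 := by
      rw [← hρ]
      simp only [one_mul]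
      have h8 : ∑ i, ρ (Sum.inr i) = ∑ i, Q * (ρ (Sum.inr i) / Q) + ∑ i, ρ (Sum.inr i) % Q := by
        rw [← Finset.sum_add_distrib]
        exact Finset.sum_congr rfl fun i _ => (Nat.div_add_mod _ Q).symm
      omega
    rw [h7] at h6
    rw [e1]
    convert h6 using 1
    ring
  obtain ⟨C, hC⟩ := hgr
  refine ⟨C * (N2 + 1), fun t => ?_⟩
  have h1 : (Pc κ (Sum.elim u v) t).map (LinearMap.mulRight κ b2) ≤ Pc κ u (t + N2) := by
    rintro _ ⟨x, hx, rfl⟩
    exact hpart t x hx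
  have h2 := Submodule.finrank_mono h1
  have h3 : Module.finrank κ ((Pc κ (Sum.elim u v) t).map (LinearMap.mulRight κ b2))
      = Module.finrank κ (Pc κ (Sum.elim u v) t) :=
    (Submodule.equivMapOfInjective _ (fun x x' hxy => mul_right_cancel₀ hb20 hxy)
      _).finrank_eq.symm
  rw [h3] at h2
  refine h2.trans ((hC _).trans ?_)
  rw [mul_assoc]
  apply Nat.mul_le_mul_left
  nlinarith

end aux

section val

variable {κ Ω : Type} [Field κ] [Field Ω] [Algebra κ Ω] {n : ℕ} {β : Type}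

lemma aeval_LF {N : ℕ} (θ : Fin (n + 1) ⊕ β → Ω) (L : Fin (N + 1) → Fin (n + 1) → κ)
    (j : Fin (N + 1)) : aeval θ (LF L j : MvPolynomial (Fin (n + 1) ⊕ β) κ)
      = ∑ i, algebraMap κ Ω (L j i) * θ (Sum.inl i) := by
  simp only [LF, map_sum, map_mul, aeval_C, aeval_X]

lemma aeval_Psi {Φ : Type} (θ : Fin (n + 1) ⊕ β → Ω) (e : Φ → ℕ)
    (cf : (Σ φ : Φ, It (Fin (n + 1)) (e φ)) → κ) (φ : Φ) :
    aeval θ (Psi β e cf φ) = ∑ μ : It (Fin (n + 1)) (e φ),
      algebraMap κ Ω (cf ⟨φ, μ⟩) * ∏ j, θ (Sum.inl j) ^ (μ.1 j) := by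
  simp only [Psi, map_sum, map_mul, map_prod, map_pow, aeval_C, aeval_X]

lemma Psi_hom {Φ : Type} (e : Φ → ℕ) (cf : (Σ φ : Φ, It (Fin (n + 1)) (e φ)) → κ) (φ : Φ) :
    (Psi β e cf φ).IsHomogeneous (e φ) := by
  refine IsHomogeneous.sum _ _ _ fun μ _ => ?_
  refine IsHomogeneous.C_mul ?_ _
  have h1 : (∏ j, (X (Sum.inl j) : MvPolynomial (Fin (n + 1) ⊕ β) κ) ^ (μ.1 j)).IsHomogeneous
      (∑ j, 1 * μ.1 j) :=
    IsHomogeneous.prod _ _ _ fun j _ => (isHomogeneous_X _ _).pow _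
  have h2 : ∑ j, 1 * μ.1 j = e φ := by
    simp only [one_mul]
    rw [← Finsupp.degree_eq_sum, μ.2]
  rwa [h2] at h1

end val

theorem k1_holds (h1 : Pool.Agent.Z894.CP.MK2) (h2 : Pool.Agent.Z894.CP.MCmp)
    (h3 : Pool.Agent.Z894.LX.GMerge) (h4 : Pool.Agent.Z894.LX.GInt) :
    Pool.Agent.Z894.CP.MK1 := by
  intro κ _ _ _ p hpf n N r B m s M hs hnN hBm hnm hNM hpM ζ hζ ω hω blk Φ _ _ e he grp fst hfst
    π hπ hsum cf hcf S hS ix h0 ee hee c hc P hP hPp hPgr hblock hfun hall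
  classical
  have hp : p.Prime := hpf.out
  have hQ0 : 0 < p ^ s := pow_pos hp.pos _
  have hpQ : p ≤ p ^ s := by
    calc p = p ^ 1 := (pow_one p).symm
      _ ≤ p ^ s := Nat.pow_le_pow_right hp.pos (by omega)
  have hQ2 : 2 ≤ p ^ s := hp.two_le.trans hpQ
  obtain ⟨Ω, _, _, _, η, hker⟩ := gen_pt P
  have hcΩ : CharZero Ω := charZero_of_injective_algebraMap (algebraMap κ Ω).injective
  have hmemP : ∀ f : MvPolynomial (Fin (n + 1) ⊕ Fin r) κ, f ∈ P ↔ aeval η f = 0 := by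
    intro f
    rw [← hker]
    exact RingHom.mem_ker
  obtain ⟨Y, hY⟩ : ∃ Y : Fin (N + 1) → Ω, ∀ j, Y j =
      aeval η (LF (ZL ζ n N) j : MvPolynomial (Fin (n + 1) ⊕ Fin r) κ) := ⟨_, fun _ => rfl⟩
  have hr : ∀ x : ℕ, ∃ y : Ω, (∀ h : x < N + 1, Y ⟨x, h⟩ = y ^ (p ^ s)) ∧
      (N + 1 ≤ x → y = 0) := by
    intro x
    by_cases hm : x < N + 1
    · obtain ⟨y, hy⟩ := IsAlgClosed.exists_pow_nat_eq (Y ⟨x, hm⟩) hQ0
      exact ⟨y, fun _ => hy.symm, fun h => absurd hm (by omega)⟩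
    · exact ⟨0, fun h => absurd h hm, fun _ => rfl⟩
  choose yy hyy hyy0 using hr
  have hbl : ∀ b, 1 < (S b).card → ∃ l : {b' // b' ∈ (S b).erase (h0 b)} → Fin (p ^ s),
      η (Sum.inr (ix b)) ^ (ee b) = ∑ o, algebraMap κ Ω (c b o *
        ω ^ (∑ b', (l b' : ℕ) * bd 0 (mE o) b'.1)) *
          ∏ x ∈ Finset.range (N + 1), yy x ^ mE o x := by
    intro b hb
    obtain ⟨E, hEP, hE⟩ := hblock b hb
    have h5' : aeval η (aeval (Sum.elim (fun a => LF (ZL ζ n N) a) (fun i => X (Sum.inr i)) :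
          Fin (N + 1) ⊕ Fin r → MvPolynomial (Fin (n + 1) ⊕ Fin r) κ) E) =
        eval₂ (algebraMap κ Ω) (Sum.elim Y (fun i => η (Sum.inr i))) E := by
      have h6 : (aeval η : MvPolynomial (Fin (n + 1) ⊕ Fin r) κ →ₐ[κ] Ω).comp
          (aeval (Sum.elim (fun a => LF (ZL ζ n N) a) (fun i => X (Sum.inr i)) :
            Fin (N + 1) ⊕ Fin r → MvPolynomial (Fin (n + 1) ⊕ Fin r) κ)) =
          aeval (Sum.elim Y (fun i => η (Sum.inr i))) := by
        apply MvPolynomial.algHom_ext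
        rintro (j | j)
        · rw [AlgHom.comp_apply, aeval_X, aeval_X]
          exact (hY j).symm
        · rw [AlgHom.comp_apply, aeval_X, aeval_X]
          exact aeval_X _ _
      rw [← AlgHom.comp_apply, h6, aeval_def]
    have h7 := (hmemP _).1 hEP
    rw [h5', hE Ω (algebraMap κ Ω) _ yy (fun m h => hyy m h) hyy0,
      Finset.prod_eq_zero_iff] at h7
    obtain ⟨l, -, hl⟩ := h7
    exact ⟨l, sub_eq_zero.mp hl⟩
  by_cases hη : ∀ i, η (Sum.inl i) = 0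
  · -- everything vanishes
    have hY0 : ∀ j, Y j = 0 := fun j => by rw [hY, aeval_LF]; simp [hη]
    have hyz : ∀ x, yy x = 0 := by
      intro x
      by_cases hx : x < N + 1
      · have h5 := hyy x hx
        rw [hY0] at h5
        exact (pow_eq_zero_iff hQ0.ne').mp h5.symm
      · exact hyy0 x (by omega)
    have hPsi0 : ∀ φ, aeval η (Psi (Fin r) e cf φ) = 0 := by
      intro φ
      rw [aeval_Psi]
      refine Finset.sum_eq_zero fun μ _ => ?_
      have hμ : 0 < ∑ j, μ.1 j := by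
        rw [← Finsupp.degree_eq_sum, μ.2]
        have h5 := he φ
        have h6 := hp.two_le
        omega
      obtain ⟨x, -, hx⟩ := Finset.exists_ne_zero_of_sum_ne_zero hμ.ne'
      rw [Finset.prod_eq_zero (Finset.mem_univ x) (by rw [hη x, zero_pow hx]), mul_zero]
    have hallv : ∀ x, (X x : MvPolynomial (Fin (n + 1) ⊕ Fin r) κ) ∈ P := by
      intro x
      rw [hmemP, aeval_X]
      rcases x with i | i
      · exact hη i
      · by_cases hi : ∀ b, 1 < (S b).card → ix b ≠ i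
        · rcases hall i hi with h5 | ⟨ρ, hρ, h5⟩
          · have h6 := (hmemP _).1 h5
            rwa [aeval_X] at h6
          · have h6 := (hmemP _).1 h5
            rw [map_sub, map_pow, aeval_X, map_prod] at h6
            have h7 : ∏ φ, aeval η (Psi (Fin r) e cf φ ^ ρ φ) = 0 := by
              obtain ⟨φ, -, hφ⟩ := Finset.exists_ne_zero_of_sum_ne_zero hρ.ne'
              refine Finset.prod_eq_zero (Finset.mem_univ φ) ?_
              rw [map_pow, hPsi0, zero_pow]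
              intro h
              exact hφ (by rw [h, zero_mul])
            rw [h7, sub_zero] at h6
            exact (pow_eq_zero_iff hρ.ne').mp h6
        · push Not at hi
          obtain ⟨b, hb, rfl⟩ := hi
          obtain ⟨l, hl⟩ := hbl b hb
          have hee' := (hee b hb).2
          have h8 : η (Sum.inr (ix b)) ^ (ee b) = 0 := by
            rw [hl]
            refine Finset.sum_eq_zero fun o _ => ?_
            have h5 : ∏ x ∈ Finset.range (N + 1), yy x ^ mE o x = 0 := by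
              simp only [hyz]
              rw [Finset.prod_pow_eq_pow_sum, sum_mE, zero_pow]
              exact (Nat.mul_pos hQ0 hee').ne'
            rw [h5, mul_zero]
          exact (pow_eq_zero_iff hee'.ne').mp h8
    refine ⟨1, fun t ht => ?_⟩
    obtain ⟨u, rfl⟩ := Nat.exists_eq_add_of_le' ht
    rw [hf_all hallv, hf_all hallv]
    simp
  push Not at hη
  obtain ⟨j0, hj0⟩ := hη
  obtain ⟨F, hFdef⟩ : ∃ F : IntermediateField κ Ω, F = RF κ η (Sum.inl j0) := ⟨_, rfl⟩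
  have k1 : ∀ v, η v / η (Sum.inl j0) ∈ F := fun v => by
    rw [hFdef]
    exact ratio_mem η (Sum.inl j0) v
  have k2 : ∀ x, Y x / η (Sum.inl j0) ∈ F := by
    intro x
    rw [hY, aeval_LF, Finset.sum_div]
    refine sum_mem fun i _ => ?_
    rw [mul_div_assoc]
    exact mul_mem (F.algebraMap_mem _) (k1 _)
  have k3 : ∀ x, Y x ≠ 0 → ∀ v, v / η (Sum.inl j0) ∈ F → v / Y x ∈ F := by
    intro x hx v hv
    have h5 := div_mem hv (k2 x)
    rwa [div_div_div_cancel_right₀ hj0] at h5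
  have hyT : ∀ j : Fin (N + 1), Y j = yy j ^ (p ^ s) := fun j => hyy j.1 j.2
  have hyne : ∀ x : Fin (N + 1), Y x ≠ 0 → yy x ≠ 0 := by
    intro x hx h
    apply hx
    rw [hyT, h, zero_pow hQ0.ne']
  have hratio : ∀ a a' : Fin (N + 1), a ≠ a' → blk a = blk a' → Y a ≠ 0 →
      yy a' / yy a ∈ F := by
    intro a a' hne hbb hYa
    have haS : (a : ℕ) ∈ S (blk a) := (hS _ _).2 ⟨a.2, rfl⟩
    have haS' : (a' : ℕ) ∈ S (blk a) := (hS _ _).2 ⟨a'.2, hbb.symm⟩
    have hcard : 1 < (S (blk a)).card :=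
      Finset.one_lt_card.2 ⟨a, haS, a', haS', fun h => hne (Fin.ext h)⟩
    obtain ⟨l, hl⟩ := hbl (blk a) hcard
    obtain ⟨hcp, hep⟩ := hee (blk a) hcard
    have h5 := h3 κ Ω N s p (ee (blk a)) 0 hp ω hω _ yy (S (blk a))
      (fun b hb => ((hS _ _).1 hb).1) (h0 (blk a)) (c (blk a)) (hc (blk a) hcard) l hl
      (by
        have h6 : p ^ s * 1 ≤ p ^ s * ee (blk a) := Nat.mul_le_mul_left _ hep
        have h7 : p ^ (0 + 1) = p := by rw [zero_add, pow_one]
        rw [h7]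
        omega) F a haS (hyne a hYa)
      (by
        intro v
        rw [← hyT a]
        by_cases hv : v < N + 1
        · rw [← hyy v hv]
          exact k3 a hYa _ (k2 _)
        · rw [hyy0 v (by omega), zero_pow hQ0.ne', zero_div]
          exact zero_mem _)
      (by
        rw [← hyT a]
        exact k3 a hYa _ (k1 _))
      (by rw [zero_add, pow_one]; exact hcp) a' haS'
    rwa [pow_zero, pow_one] at h5
  obtain ⟨v, hv1, hv0⟩ : ∃ v : Fin (N + 1) × Fin (N + 1) → Ω,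
      (∀ a a', a ≠ a' → blk a = blk a' → Y a ≠ 0 → v (a, a') = Y a * (yy a' / yy a)) ∧
      (∀ a a', ¬ (a ≠ a' ∧ blk a = blk a' ∧ Y a ≠ 0) → v (a, a') = 0) := by
    refine ⟨fun x => if x.1 ≠ x.2 ∧ blk x.1 = blk x.2 ∧ Y x.1 ≠ 0 then
      Y x.1 * (yy x.2 / yy x.1) else 0, ?_, ?_⟩
    · intro a a' h h' h''
      exact if_pos ⟨h, h', h''⟩
    · intro a a' h
      exact if_neg h
  have hvQ : ∀ a a', a ≠ a' → blk a = blk a' → v (a, a') ^ (p ^ s) =
      Y a ^ (p ^ s - 1) * Y a' := by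
    intro a a' hne hbb
    by_cases hYa : Y a = 0
    · rw [hv0 a a' (fun h => h.2.2 hYa), hYa, zero_pow hQ0.ne', zero_pow (by omega), zero_mul]
    · rw [hv1 a a' hne hbb hYa, mul_pow, div_pow, ← hyT, ← hyT]
      have h5 : Y a ^ (p ^ s) = Y a ^ (p ^ s - 1) * Y a := by
        rw [← pow_succ, Nat.sub_add_cancel hQ0]
      rw [h5]
      field_simp
  have hvF : ∀ x, v x / η (Sum.inl j0) ∈ F := by
    rintro ⟨a, a'⟩
    by_cases h : a ≠ a' ∧ blk a = blk a' ∧ Y a ≠ 0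
    · rw [hv1 a a' h.1 h.2.1 h.2.2, mul_div_right_comm]
      exact mul_mem (k2 a) (hratio a a' h.1 h.2.1 h.2.2)
    · rw [hv0 a a' h, zero_div]
      exact zero_mem _
  have hYPc : ∀ a, Y a ∈ Pc κ η 1 := fun a => by
    rw [hY]
    exact mem_Pc (LF_hom _ _)
  have hvPc : ∀ x, v x ^ (p ^ s) ∈ Pc κ η (p ^ s) := by
    rintro ⟨a, a'⟩
    by_cases h : a ≠ a' ∧ blk a = blk a'
    · rw [hvQ a a' h.1 h.2]
      have h5 := Pc_mul (Pc_pow (hYPc a) (p ^ s - 1)) (hYPc a')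
      rwa [one_mul, Nat.sub_add_cancel hQ0] at h5
    · rw [hv0 a a' (fun h' => h ⟨h'.1, h'.2.1⟩), zero_pow hQ0.ne']
      exact Submodule.zero_mem _
  have hvint : ∀ x, IntRel (κ := κ) η 1 (v x) := fun x =>
    intRel_pow η 1 (p ^ s) hQ0 (v x) (by rw [one_mul]; exact hvPc x)
  have hPf : ∀ t, hf P t = Module.finrank κ (Pc κ η t) := by
    intro t
    rw [Pc_finrank, hker]
  have hgr1 : ∃ C : ℕ, ∀ t, Module.finrank κ (Pc κ (Sum.elim η v) t) ≤ C * (t + 1) := by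
    refine growth η (Sum.inl j0) hj0 v (p ^ s) hQ0 hvPc (fun x => hFdef ▸ hvF x) ?_
    obtain ⟨C, hC⟩ := hPgr
    exact ⟨C, fun t => by rw [← hPf]; exact hC t⟩
  -- the new point
  obtain ⟨zb, hzb1, hzb0⟩ : ∃ zb : Fin r → Ω,
      (∀ i, ¬ (∀ b, 1 < (S b).card → ix b ≠ i) → zb i = η (Sum.inr i)) ∧
      (∀ i, (∀ b, 1 < (S b).card → ix b ≠ i) → zb i = 0) :=
    ⟨fun i => if (∀ b, 1 < (S b).card → ix b ≠ i) then 0 else η (Sum.inr i),
      fun i h => if_neg h, fun i h => if_pos h⟩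
  obtain ⟨zf, hzf1, hzf0⟩ : ∃ zf : Fin r → Ω,
      (∀ i, (∀ b, 1 < (S b).card → ix b ≠ i) → zf i = η (Sum.inr i)) ∧
      (∀ i, ¬ (∀ b, 1 < (S b).card → ix b ≠ i) → zf i = 0) :=
    ⟨fun i => if (∀ b, 1 < (S b).card → ix b ≠ i) then η (Sum.inr i) else 0,
      fun i h => if_pos h, fun i h => if_neg h⟩
  obtain ⟨ξ, hξl, hξf, hξv⟩ : ∃ ξ : Fin (n + 1) ⊕ (Fin r ⊕ (Fin (N + 1) × Fin (N + 1))) → Ω,
      (∀ j, ξ (Sum.inl j) = η (Sum.inl j)) ∧ (∀ i, ξ (Sum.inr (Sum.inl i)) = zf i) ∧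
      (∀ x, ξ (Sum.inr (Sum.inr x)) = v x) :=
    ⟨Sum.elim (fun j => η (Sum.inl j)) (Sum.elim zf v), fun _ => rfl, fun _ => rfl, fun _ => rfl⟩
  have hle1 : ∀ t, Pc κ (Sum.elim ξ zb) t ≤ Pc κ (Sum.elim η v) t := by
    intro t
    refine Pc_le ?_ t
    rintro ((j | (i | x)) | i)
    · have h5 := Pc_X (κ := κ) (Sum.elim η v) (Sum.inl (Sum.inl j))
      rw [Sum.elim_inl] at h5 ⊢
      rwa [hξl]
    · rw [Sum.elim_inl, hξf]
      by_cases hi : ∀ b, 1 < (S b).card → ix b ≠ i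
      · rw [hzf1 i hi]
        exact Pc_X (κ := κ) (Sum.elim η v) (Sum.inl (Sum.inr i))
      · rw [hzf0 i hi]
        exact Submodule.zero_mem _
    · rw [Sum.elim_inl, hξv]
      exact Pc_X (κ := κ) (Sum.elim η v) (Sum.inr x)
    · rw [Sum.elim_inr]
      by_cases hi : ∀ b, 1 < (S b).card → ix b ≠ i
      · rw [hzb0 i hi]
        exact Submodule.zero_mem _
      · rw [hzb1 i hi]
        exact Pc_X (κ := κ) (Sum.elim η v) (Sum.inl (Sum.inr i))
  have hle2 : ∀ t, Pc κ (Sum.elim η v) t ≤ Pc κ (Sum.elim ξ zb) t := by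
    intro t
    refine Pc_le ?_ t
    rintro ((j | i) | x)
    · rw [Sum.elim_inl, ← hξl]
      exact Pc_X (κ := κ) (Sum.elim ξ zb) (Sum.inl (Sum.inl j))
    · rw [Sum.elim_inl]
      by_cases hi : ∀ b, 1 < (S b).card → ix b ≠ i
      · rw [← hzf1 i hi, ← hξf]
        exact Pc_X (κ := κ) (Sum.elim ξ zb) (Sum.inl (Sum.inr (Sum.inl i)))
      · rw [← hzb1 i hi]
        exact Pc_X (κ := κ) (Sum.elim ξ zb) (Sum.inr i)
    · rw [Sum.elim_inr, ← hξv]
      exact Pc_X (κ := κ) (Sum.elim ξ zb) (Sum.inl (Sum.inr (Sum.inr x)))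
  have hPcEq : ∀ t, Pc κ (Sum.elim ξ zb) t = Pc κ (Sum.elim η v) t := fun t =>
    le_antisymm (hle1 t) (hle2 t)
  have hgr2 : ∃ C : ℕ, ∀ t, Module.finrank κ (Pc κ (Sum.elim ξ zb) t) ≤ C * (t + 1) := by
    obtain ⟨C, hC⟩ := hgr1
    exact ⟨C, fun t => by rw [hPcEq]; exact hC t⟩
  have hgr3 : ∃ C : ℕ, ∀ t, Module.finrank κ (Pc κ ξ t) ≤ C * (t + 1) := by
    obtain ⟨C, hC⟩ := hgr2
    refine ⟨C, fun t => le_trans (Submodule.finrank_mono ?_) (hC t)⟩
    exact Pc_le (fun x => Pc_X (κ := κ) (Sum.elim ξ zb) (Sum.inl x)) t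
  obtain ⟨P', hP'h, hP'm, hP'f⟩ := hom_ideal (κ := κ) ξ
  have hξLF : ∀ a, aeval ξ (LF (ZL ζ n N) a :
      MvPolynomial (Fin (n + 1) ⊕ (Fin r ⊕ (Fin (N + 1) × Fin (N + 1)))) κ) = Y a := by
    intro a
    rw [hY, aeval_LF, aeval_LF]
    exact Finset.sum_congr rfl fun i _ => by rw [hξl]
  have hξPsi : ∀ φ, aeval ξ (Psi (Fin r ⊕ (Fin (N + 1) × Fin (N + 1))) e cf φ) =
      aeval η (Psi (Fin r) e cf φ) := by
    intro φ
    rw [aeval_Psi, aeval_Psi]
    exact Finset.sum_congr rfl fun i _ => by simp only [hξl]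
  have hhomE : ∀ (a b : Fin (N + 1)) (i : Fin r ⊕ (Fin (N + 1) × Fin (N + 1))),
      ((X (Sum.inr i) : MvPolynomial (Fin (n + 1) ⊕ (Fin r ⊕ (Fin (N + 1) × Fin (N + 1)))) κ)
        ^ (p ^ s) - (LF (ZL ζ n N) a) ^ (p ^ s - 1) * LF (ZL ζ n N) b).IsHomogeneous (p ^ s) := by
    intro a b i
    refine IsHomogeneous.sub ?_ ?_
    · have h5 := (isHomogeneous_X κ (Sum.inr i : Fin (n + 1) ⊕
        (Fin r ⊕ (Fin (N + 1) × Fin (N + 1))))).pow (p ^ s)
      rwa [one_mul] at h5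
    · have h5 := ((LF_hom (β := Fin r ⊕ (Fin (N + 1) × Fin (N + 1))) (ZL ζ n N) a).pow
        (p ^ s - 1)).mul (LF_hom (β := Fin r ⊕ (Fin (N + 1) × Fin (N + 1))) (ZL ζ n N) b)
      rwa [one_mul, Nat.sub_add_cancel hQ0] at h5
  have R0 : ∀ a b : Fin (N + 1), a ≠ b → blk a = blk b →
      (X (Sum.inr (Sum.inr (a, b))) :
        MvPolynomial (Fin (n + 1) ⊕ (Fin r ⊕ (Fin (N + 1) × Fin (N + 1)))) κ) ^ (p ^ s) -
        (LF (ZL ζ n N) a) ^ (p ^ s - 1) * LF (ZL ζ n N) b ∈ P' := by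
    intro a b hab hbb
    rw [hP'm (p ^ s) _ (hhomE a b _)]
    rw [map_sub, map_mul, map_pow, map_pow, aeval_X, hξLF, hξLF, hξv, hvQ a b hab hbb, sub_self]
  have R2 : ∀ cc, ∃ i : Fin r ⊕ (Fin (N + 1) × Fin (N + 1)),
      X (Sum.inr i) ^ (p ^ s) - Psi (Fin r ⊕ (Fin (N + 1) × Fin (N + 1))) e cf (fst cc) *
        ∏ φ ∈ Finset.univ.filter (fun φ => grp φ = cc ∧ φ ≠ fst cc),
          Psi (Fin r ⊕ (Fin (N + 1) × Fin (N + 1))) e cf φ ^ π φ ∈ P' := by
    intro cc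
    obtain ⟨i, hi, hiP⟩ := hfun cc
    refine ⟨Sum.inl i, ?_⟩
    rw [hP'm (p ^ s)]
    · have h5 := (hmemP _).1 hiP
      rw [map_sub, map_mul, map_pow, map_prod, aeval_X] at h5 ⊢
      rw [hξf, hzf1 i hi, hξPsi]
      simp only [map_pow] at h5 ⊢
      simp only [hξPsi]
      exact h5
    · refine IsHomogeneous.sub ?_ ?_
      · have h5 := (isHomogeneous_X κ (Sum.inr (Sum.inl i) : Fin (n + 1) ⊕
          (Fin r ⊕ (Fin (N + 1) × Fin (N + 1))))).pow (p ^ s)
        rwa [one_mul] at h5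
      · have h5 := (Psi_hom (β := Fin r ⊕ (Fin (N + 1) × Fin (N + 1))) e cf (fst cc)).mul
          (IsHomogeneous.prod (Finset.univ.filter (fun φ => grp φ = cc ∧ φ ≠ fst cc))
            (fun φ => Psi (Fin r ⊕ (Fin (N + 1) × Fin (N + 1))) e cf φ ^ π φ)
            (fun φ => e φ * π φ) (fun φ _ => (Psi_hom e cf φ).pow (π φ)))
        have h6 : e (fst cc) + ∑ φ ∈ Finset.univ.filter (fun φ => grp φ = cc ∧ φ ≠ fst cc),
            e φ * π φ = p ^ s := by
          rw [← hsum cc]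
          congr 1
          exact Finset.sum_congr rfl fun φ _ => mul_comm _ _
        rwa [h6] at h5
  have R3 : ∀ i : Fin r ⊕ (Fin (N + 1) × Fin (N + 1)),
      (X (Sum.inr i) : MvPolynomial (Fin (n + 1) ⊕ (Fin r ⊕ (Fin (N + 1) × Fin (N + 1)))) κ)
        ∈ P' ∨
        (∃ ρ : Φ → ℕ, 0 < ∑ φ, ρ φ * e φ ∧
          (X (Sum.inr i) : MvPolynomial (Fin (n + 1) ⊕ (Fin r ⊕ (Fin (N + 1) × Fin (N + 1)))) κ)
            ^ (∑ φ, ρ φ * e φ) -
            ∏ φ, Psi (Fin r ⊕ (Fin (N + 1) × Fin (N + 1))) e cf φ ^ ρ φ ∈ P') ∨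
        ∃ a b, (X (Sum.inr i) :
          MvPolynomial (Fin (n + 1) ⊕ (Fin r ⊕ (Fin (N + 1) × Fin (N + 1)))) κ) ^ (p ^ s) -
          (LF (ZL ζ n N) a) ^ (p ^ s - 1) * LF (ZL ζ n N) b ∈ P' := by
    rintro (i | ⟨a, b⟩)
    · by_cases hi : ∀ b, 1 < (S b).card → ix b ≠ i
      · rcases hall i hi with h5 | ⟨ρ, hρ, h5⟩
        · left
          rw [hP'm 1 _ (isHomogeneous_X _ _), aeval_X, hξf, hzf1 i hi]
          have h6 := (hmemP _).1 h5
          rwa [aeval_X] at h6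
        · right
          left
          refine ⟨ρ, hρ, ?_⟩
          rw [hP'm (∑ φ, ρ φ * e φ)]
          · have h6 := (hmemP _).1 h5
            rw [map_sub, map_pow, map_prod, aeval_X] at h6 ⊢
            rw [hξf, hzf1 i hi]
            simp only [map_pow] at h6 ⊢
            simp only [hξPsi]
            exact h6
          · refine IsHomogeneous.sub ?_ ?_
            · have h6 := (isHomogeneous_X κ (Sum.inr (Sum.inl i) : Fin (n + 1) ⊕
                (Fin r ⊕ (Fin (N + 1) × Fin (N + 1))))).pow (∑ φ, ρ φ * e φ)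
              rwa [one_mul] at h6
            · have h6 := IsHomogeneous.prod Finset.univ
                (fun φ => Psi (Fin r ⊕ (Fin (N + 1) × Fin (N + 1))) e cf φ ^ ρ φ)
                (fun φ => e φ * ρ φ) (fun φ _ => (Psi_hom e cf φ).pow (ρ φ))
              have h7 : ∑ φ, e φ * ρ φ = ∑ φ, ρ φ * e φ :=
                Finset.sum_congr rfl fun φ _ => mul_comm _ _
              rwa [h7] at h6
      · left
        rw [hP'm 1 _ (isHomogeneous_X _ _), aeval_X, hξf, hzf0 i hi]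
    · by_cases h : a ≠ b ∧ blk a = blk b
      · right
        right
        exact ⟨a, b, R0 a b h.1 h.2⟩
      · left
        rw [hP'm 1 _ (isHomogeneous_X _ _), aeval_X, hξv,
          hv0 a b (fun h' => h ⟨h'.1, h'.2.1⟩)]
  obtain ⟨K0, hK0⟩ := h1 κ p n N B m s M hs hnN hBm hnm hNM hpM ζ hζ blk
    (Fin r ⊕ (Fin (N + 1) × Fin (N + 1))) Φ e he grp fst hfst π hπ hsum cf hcf P' hP'h
    (by
      obtain ⟨C, hC⟩ := hgr3
      exact ⟨C, fun t => by rw [hP'f]; exact hC t⟩)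
    (fun a b hab hbb => ⟨Sum.inr (a, b), R0 a b hab hbb⟩) R2 R3
  -- the block coordinates are integral
  have hzint : ∀ i, IntRel (κ := κ) ξ 1 (zb i) := by
    intro i
    by_cases hi : ∀ b, 1 < (S b).card → ix b ≠ i
    · rw [hzb0 i hi]
      exact intRel_pow ξ 1 1 one_pos 0 (by
        rw [pow_one]
        exact Submodule.zero_mem _)
    · rw [hzb1 i hi]
      push Not at hi
      obtain ⟨b, hb, rfl⟩ := hi
      obtain ⟨l, hl⟩ := hbl b hb
      have hep := (hee b hb).2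
      have hmono : ∀ t, Pc κ (fun j => η (Sum.inl j)) t ≤ Pc κ ξ t := fun t =>
        Pc_le (fun j => by rw [← hξl]; exact Pc_X ξ (Sum.inl j)) t
      refine intRel_mono hmono ?_
      refine h4 κ Ω n (fun j => η (Sum.inl j)) 1 (p ^ s) N (ee b) hQ0 one_pos hep yy
        ?_ _ _ (fun o => mE o) ?_ _ hl
      · intro x
        rw [one_mul]
        by_cases hx : x < N + 1
        · rw [← hyy x hx, hY, aeval_LF]
          refine Submodule.sum_mem _ fun i _ => ?_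
          rw [← Algebra.smul_def]
          exact Submodule.smul_mem _ _ (Pc_X (κ := κ) (fun j => η (Sum.inl j)) i)
        · rw [hyy0 x (by omega), zero_pow hQ0.ne']
          exact Submodule.zero_mem _
      · intro o
        rw [sum_mE, one_mul]
  obtain ⟨K1, a1, b1, δ1, -, hA1, hB1, -, hab1⟩ := h2 κ Ω (Fin (n + 1) ⊕ Fin r)
    (Fin (N + 1) × Fin (N + 1)) η v (Sum.inl j0) hj0 hvint hgr1
  have hab1' : a1 = b1 := hab1 (fun x => hFdef ▸ hvF x)
  obtain ⟨K2, a2, b2, δ2, -, hA2, hB2, hab2, -⟩ := h2 κ Ω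
    (Fin (n + 1) ⊕ (Fin r ⊕ (Fin (N + 1) × Fin (N + 1)))) (Fin r) ξ zb (Sum.inl j0)
    (by rw [hξl]; exact hj0) hzint hgr2
  have e12 : a1 = a2 := by
    have h5 := hA1 (K1 + K2) (by omega)
    have h6 := hA2 (K1 + K2) (by omega)
    rw [hPcEq, hPcEq] at h6
    omega
  have hdiv : ((p ^ s : ℕ) : ℤ) ∣ (b2 : ℤ) := by
    have h5 := hK0 (K0 + K2) (by omega)
    have h6 := hB2 (K0 + K2) (by omega)
    rw [hP'f, hP'f, h6] at h5
    have h7 : ((Module.finrank κ (Pc κ ξ (K0 + K2)) + b2 : ℕ) : ℤ) -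
        Module.finrank κ (Pc κ ξ (K0 + K2)) = b2 := by
      push_cast
      ring
    rwa [h7] at h5
  refine ⟨K1, fun t ht => ?_⟩
  rw [hPf, hPf, hB1 t ht]
  have h7 : ((Module.finrank κ (Pc κ η t) + b1 : ℕ) : ℤ) -
      Module.finrank κ (Pc κ η t) = b1 := by
    push_cast
    ring
  rw [h7, ← hab1', e12, hab2]
  push_cast
  exact Dvd.dvd.mul_left (by exact_mod_cast hdiv) _

end Pool.Agent.Y378.MB
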